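import Pool.Agent.V11248.Pk.Final

/-!
# Successors of singular limits of the Tukey spectrum

We answer Q1 of the problem: starting from a measurable cardinal `κ` with `2 ^ κ > κ⁺`, there is a
forcing notion (Prikry forcing) all of whose conditions force that `κ` is a singular cardinal of
cofinality `ω`, and that there is an `ℵ₁`-directed set whose Tukey spectrum is unbounded in `κ`, but
contains neither `ω = cf κ` nor `κ⁺`.
-/

namespace Pool.Agent.Results.MP_c014b8_lc.PrikryCounterexample

open Cardinal Set Pool.Agent.Helper669.Forcing Pool.Agent.V11248.OS Pool.Agent.V11248.Pk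

/-- `U` is a normal measure on the (measurable) cardinal `κ`: it is a nonprincipal `κ`-complete
ultrafilter on the set `κ` (the well-ordered set of type `κ`), closed under diagonal
intersections. -/
structure IsNormalMeasure (κ : Cardinal.{0}) (U : Ultrafilter κ.ord.ToType) : Prop where
  uncountable : ℵ₀ < κ
  nonprincipal : ∀ a : κ.ord.ToType, {a} ∉ U
  complete : ∀ (ι : Type) (A : ι → Set κ.ord.ToType), #ι < κ → (∀ i, A i ∈ U) → (⋂ i, A i) ∈ U
  normal : ∀ A : κ.ord.ToType → Set κ.ord.ToType, (∀ a, A a ∈ U) → {x | ∀ a < x, x ∈ A a} ∈ U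

theorem normal_of {κ : Cardinal.{0}} {U : Ultrafilter κ.ord.ToType} (hU : IsNormalMeasure κ U) :
    Normal κ U where
  unc := hU.uncountable
  card := mk_ord_toType κ
  small := fun a => mk_Iio_toType_ord_lt a
  complete := hU.complete
  tail := fun a => by
    have hnomax : NoMaxOrder κ.ord.ToType := Cardinal.noMaxOrder hU.uncountable.le
    obtain ⟨b, hb⟩ := exists_gt a
    have h1 : #(Iic a) < κ :=
      (mk_le_mk_of_subset fun x hx => lt_of_le_of_lt hx hb).trans_lt (mk_Iio_toType_ord_lt b)
    refine Filter.mem_of_superset (hU.complete (Iic a) (fun y => {(y : κ.ord.ToType)}ᶜ) h1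
      fun y => ?_) fun x hx => ?_
    · exact (Ultrafilter.compl_mem_iff_notMem).2 (hU.nonprincipal y)
    · by_contra hcon
      have h2 := mem_iInter.1 hx ⟨x, mem_Iic.2 (not_lt.1 hcon)⟩
      exact h2 rfl
  normal := hU.normal

theorem result (κ : Cardinal.{0}) (U : Ultrafilter κ.ord.ToType) (hU : IsNormalMeasure κ U)
    (hκ : Order.succ κ < 2 ^ κ) :
    ∃ (P : Type) (_ : Preorder P) (_ : Nonempty P) (X : Type) (_ : Nonempty X)
      (Le : X → X → Set P), ∀ p : P, p ∈ Refutes κ Le := by
  have hN := normal_of hU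
  obtain ⟨h, B, hd⟩ := exists_hdata hN hκ
  have hpos : ∀ x, ∃ y, y < h x := fun x => ⟨_, (hd.unc x).choose_spec.1⟩
  choose b0 hb0 using hpos
  refine ⟨PC U B, inferInstance, ⟨Pool.Agent.V11248.Pk.mk hN hd.memB [] List.Pairwise.nil (by simp) Set.univ
      Filter.univ_mem⟩, XX h, ⟨⟨b0, hb0⟩⟩, LeN, fun p =>
    ⟨directedOrder hd p, countablyDirected hN hd p, cofinalityOmega hN p, omega_notMem hN hd p, fun μ hμ =>
      spectrum_unbounded hN hd p hμ, staysRegular_succ hN p, succ_notMem hN hd p⟩⟩

end Pool.Agent.Results.MP_c014b8_lc.PrikryCounterexample
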